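import Pool.Agent.Lib.MP_688fd0_co.OSF.Iface

/-!
FLIPSEL: many equal windows give a tour whose volume is a unit.
-/

set_option autoImplicit false

namespace Pool.Agent.Lib.MP_688fd0_co.OSF.H16

open Finset Pool.Agent.Lib.MP_688fd0_co.OSF

universe u v w

section

variable {Q : Type u} [Group Q] {B : Lb.{u, v} Q}

lemma fin_tr (y : Q) : ∀ (l : List B.L) (x : Q), B.fin (y * x) l = y * B.fin x l
  | [], x => rfl
  | g :: l, x => by
    show B.fin (y * x * B.q g) l = y * B.fin (x * B.q g) l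
    rw [mul_assoc]
    exact fin_tr y l (x * B.q g)

lemma verts_tr (y : Q) : ∀ (l : List B.L) (x : Q),
    B.verts (y * x) l = (B.verts x l).map (fun z => y * z)
  | [], x => rfl
  | g :: l, x => by
    show (y * x) :: B.verts (y * x * B.q g) l = (x :: B.verts (x * B.q g) l).map (fun z => y * z)
    rw [mul_assoc, verts_tr y l (x * B.q g), List.map_cons]

lemma vol_tr {R : Type w} [CommRing R] (V : Vd B R) (y : Q) : ∀ (l : List B.L) (x : Q),
    V.vol (y * x) l = V.chi y * V.vol x l
  | [], x => by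
    show (0 : R) = V.chi y * 0
    rw [mul_zero]
  | g :: l, x => by
    show V.chi (y * x) * V.n g + V.vol (y * x * B.q g) l =
      V.chi y * (V.chi x * V.n g + V.vol (x * B.q g) l)
    rw [mul_assoc, vol_tr V y l (x * B.q g), map_mul]
    ring

/-- The translate of a list of directed strands. -/
def trl (y : Q) (l : List (Strand B × Bool)) : List (Strand B × Bool) :=
  l.map fun s => (s.1.tr y, s.2)

lemma trl_vb (y : Q) (l : List (Strand B × Bool)) :
    ((trl y l).map Prod.fst).flatMap Strand.vb =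
      ((l.map Prod.fst).flatMap Strand.vb).map (fun z => y * z) := by
  unfold trl
  induction l with
  | nil => rfl
  | cons s l ih =>
    simp only [List.map_cons, List.flatMap_cons, List.map_append] at ih ⊢
    rw [ih]
    congr 1
    exact verts_tr y s.1.l s.1.x

lemma trl_va (y : Q) (l : List (Strand B × Bool)) :
    ((trl y l).map Prod.fst).flatMap Strand.va =
      ((l.map Prod.fst).flatMap Strand.va).map (fun z => y * z) := by
  unfold trl
  induction l with
  | nil => rfl
  | cons s l ih =>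
    simp only [List.map_cons, List.flatMap_cons, List.map_append] at ih ⊢
    rw [ih]
    congr 1
    exact verts_tr y s.1.l' s.1.x

lemma dlt_append {R : Type w} [CommRing R] (V : Vd B R) (l l' : List (Strand B × Bool)) :
    V.dlt (l ++ l') = V.dlt l + V.dlt l' := by
  unfold Vd.dlt
  rw [List.map_append, List.sum_append]

lemma dlt_flatMap {R : Type w} [CommRing R] (V : Vd B R) {ι : Type*} (f : ι → List (Strand B × Bool))
    (l : List ι) : V.dlt (l.flatMap f) = (l.map fun k => V.dlt (f k)).sum := by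
  induction l with
  | nil => rfl
  | cons k l ih => rw [List.flatMap_cons, dlt_append, ih, List.map_cons, List.sum_cons]

lemma dlt_trl {R : Type w} [CommRing R] (V : Vd B R) (y : Q) (l : List (Strand B × Bool)) :
    V.dlt (trl y l) = V.chi y * V.dlt l := by
  unfold trl
  induction l with
  | nil =>
    show (0 : R) = V.chi y * 0
    rw [mul_zero]
  | cons s l ih =>
    have e1 : V.dlt ((s :: l).map fun s => (s.1.tr y, s.2)) =
        (if s.2 then 1 else -1) * (V.vol (y * s.1.x) s.1.l' - V.vol (y * s.1.x) s.1.l) +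
          V.dlt (l.map fun s => (s.1.tr y, s.2)) := by
      unfold Vd.dlt
      rw [List.map_cons, List.map_cons, List.sum_cons]
      rfl
    have e2 : V.dlt (s :: l) =
        (if s.2 then 1 else -1) * (V.vol s.1.x s.1.l' - V.vol s.1.x s.1.l) + V.dlt l := by
      unfold Vd.dlt
      rw [List.map_cons, List.sum_cons]
    rw [e1, e2, ih, vol_tr, vol_tr]
    ring

/-- Joining exchangeable families. -/
lemma sok_flatMap {ι : Type*} (f : ι → List (Strand B × Bool)) (l : List ι) (hl : l.Nodup)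
    (h : ∀ k ∈ l, SOK ((f k).map Prod.fst))
    (hd : ∀ k ∈ l, ∀ k' ∈ l, k ≠ k' → ∀ s ∈ f k, ∀ s' ∈ f k', ∀ y ∈ s.1.vb, ∀ y' ∈ s'.1.vb, y ≠ y') :
    SOK ((l.flatMap f).map Prod.fst) := by
  have e : ∀ g : Strand B → List Q, ((l.flatMap f).map Prod.fst).flatMap g =
      l.flatMap (fun k => ((f k).map Prod.fst).flatMap g) := by
    intro g
    rw [List.map_flatMap, List.flatMap_assoc]
  refine ⟨?_, ?_, ?_, ?_⟩
  · intro s hs
    rw [List.map_flatMap, List.mem_flatMap] at hs
    obtain ⟨k, hk, hs⟩ := hs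
    exact (h k hk).ne s hs
  · intro s hs
    rw [List.map_flatMap, List.mem_flatMap] at hs
    obtain ⟨k, hk, hs⟩ := hs
    exact (h k hk).fin s hs
  · rw [e, List.nodup_flatMap]
    refine ⟨fun k hk => (h k hk).nodup, ?_⟩
    refine hl.pairwise_of_forall_ne ?_
    intro k hk k' hk' hne
    show List.Disjoint (List.flatMap Strand.vb (List.map Prod.fst (f k)))
      (List.flatMap Strand.vb (List.map Prod.fst (f k')))
    rw [List.disjoint_left]
    intro y hy hy'
    rw [List.mem_flatMap] at hy hy'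
    obtain ⟨s, hs, hy⟩ := hy
    obtain ⟨s', hs', hy'⟩ := hy'
    rw [List.mem_map] at hs hs'
    obtain ⟨t, ht, rfl⟩ := hs
    obtain ⟨t', ht', rfl⟩ := hs'
    exact hd k hk k' hk' hne t ht t' ht' y hy y hy' rfl
  · rw [e, e]
    exact List.Perm.flatMap_left _ (fun k hk => (h k hk).perm)

lemma sok_trl (y : Q) (l : List (Strand B × Bool)) (h : SOK (l.map Prod.fst)) :
    SOK ((trl y l).map Prod.fst) := by
  have hm : ∀ s ∈ (trl y l).map Prod.fst, ∃ t ∈ l.map Prod.fst, s = t.tr y := by
    intro s hs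
    unfold trl at hs
    rw [List.map_map, List.mem_map] at hs
    obtain ⟨t, ht, rfl⟩ := hs
    exact ⟨t.1, List.mem_map.mpr ⟨t, ht, rfl⟩, rfl⟩
  refine ⟨?_, ?_, ?_, ?_⟩
  · intro s hs
    obtain ⟨t, ht, rfl⟩ := hm s hs
    exact h.ne t ht
  · intro s hs
    obtain ⟨t, ht, rfl⟩ := hm s hs
    show B.fin (y * t.x) t.l = B.fin (y * t.x) t.l'
    rw [fin_tr, fin_tr, h.fin t ht]
  · rw [trl_vb]
    exact h.nodup.map (fun a b hab => mul_left_cancel hab)
  · rw [trl_vb, trl_va]
    exact h.perm.map _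

lemma tvol_map [Fintype Q] {R : Type w} [CommRing R] (V : Vd B R) {R' : Type*} [CommRing R']
    (f : R →+* R') (T : Tour B) : (V.map f).tvol T = f (V.tvol T) := by
  unfold Vd.tvol
  rw [map_sum]
  refine Finset.sum_congr rfl fun x _ => ?_
  rw [map_mul]
  rfl

/-- A residue class which is not 0 modulo any prime divisor of `m` is a unit. -/
lemma isUnit_of_red {m : ℕ} (hm : m ≠ 0) (a : ZMod m)
    (h : ∀ p, ∀ hp : p ∈ m.primeFactors, red (Nat.dvd_of_mem_primeFactors hp) a ≠ 0) : IsUnit a := by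
  haveI : NeZero m := ⟨hm⟩
  rw [← ZMod.natCast_zmod_val a, ZMod.isUnit_iff_coprime]
  by_contra hc
  obtain ⟨p, hp, hpa, hpm⟩ := Nat.Prime.not_coprime_iff_dvd.mp hc
  have hp' : p ∈ m.primeFactors := Nat.mem_primeFactors.mpr ⟨hp, hpm, hm⟩
  refine h p hp' ?_
  have e : red (Nat.dvd_of_mem_primeFactors hp') a = ((a.val : ℕ) : ZMod p) := by
    conv_lhs => rw [← ZMod.natCast_zmod_val a]
    exact map_natCast _ _
  rw [e, ZMod.natCast_eq_zero_iff]
  exact hpa

end

/-- **FLIPSEL.** -/
theorem flipsel (hR : RewireS.{u, v}) (hN : NumselS) : FlipselS.{u, v} := by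
  classical
  intro Q _ _ B m V hm T w x J hJ hsok hchi hpass hdis hdlt
  have hm0 : m ≠ 0 := by
    rintro rfl
    exact absurd hm (by decide)
  set S := m.primeFactors with hS
  -- the numbers of windows
  obtain ⟨j, hjlt, hj⟩ := hN S
    (fun p hp => by
      have hpp := Nat.prime_of_mem_primeFactors hp
      refine ⟨hpp, ?_⟩
      rintro rfl
      have : 2 ∣ m := Nat.dvd_of_mem_primeFactors hp
      exact (Nat.not_even_iff_odd.mpr hm) (even_iff_two_dvd.mpr this))
    (fun p => if hp : p ∈ m.primeFactors then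
      (V.map (red (Nat.dvd_of_mem_primeFactors hp))).tvol T else 0)
    (fun q p => if hp : p ∈ m.primeFactors then
      (V.map (red (Nat.dvd_of_mem_primeFactors hp))).dlt (w q) else 0)
    (fun p hp => by
      rw [dif_pos hp]
      exact hdlt p hp)
  rw [← hJ] at hjlt
  -- the strands
  set idx : List (Σ _ : ℕ, ℕ) := (S.sigma fun q => Finset.range (j q)).toList with hidx
  have hmem : ∀ k ∈ idx, k.1 ∈ S ∧ k.2 < J := by
    intro k hk
    rw [hidx, Finset.mem_toList, Finset.mem_sigma, Finset.mem_range] at hk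
    exact ⟨hk.1, hk.2.trans (hjlt k.1 hk.1)⟩
  set f : (Σ _ : ℕ, ℕ) → List (Strand B × Bool) := fun k => trl (x k.1 k.2) (w k.1) with hf
  have hsok' : SOK ((idx.flatMap f).map Prod.fst) := by
    refine sok_flatMap f idx (Finset.nodup_toList _) (fun k hk => sok_trl _ _ (hsok k.1 (hmem k hk).1)) ?_
    intro k hk k' hk' hne s hs s' hs' y hy y' hy'
    obtain ⟨h1, h2⟩ := hmem k hk
    obtain ⟨h1', h2'⟩ := hmem k' hk'
    have hne' : (k.1, k.2) ≠ (k'.1, k'.2) := by
      intro h
      apply hne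
      rw [Prod.mk.injEq] at h
      obtain ⟨a, b⟩ := k
      obtain ⟨a', b'⟩ := k'
      obtain ⟨ha, hb⟩ := h
      simp only at ha hb
      subst ha
      subst hb
      rfl
    rw [hf] at hs hs'
    simp only [trl, List.mem_map] at hs hs'
    obtain ⟨t, ht, rfl⟩ := hs
    obtain ⟨t', ht', rfl⟩ := hs'
    have ey : (t.1.tr (x k.1 k.2)).vb = t.1.vb.map (fun z => x k.1 k.2 * z) :=
      verts_tr (x k.1 k.2) t.1.l t.1.x
    have ey' : (t'.1.tr (x k'.1 k'.2)).vb = t'.1.vb.map (fun z => x k'.1 k'.2 * z) :=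
      verts_tr (x k'.1 k'.2) t'.1.l t'.1.x
    simp only at hy hy'
    rw [ey, List.mem_map] at hy
    rw [ey', List.mem_map] at hy'
    obtain ⟨z, hz, rfl⟩ := hy
    obtain ⟨z', hz', rfl⟩ := hy'
    exact hdis k.1 h1 k.2 h2 k'.1 h1' k'.2 h2' hne' t ht t' ht' z hz z' hz'
  have hpass' : ∀ p ∈ idx.flatMap f, T.Pass p.2 p.1.x p.1.l := by
    intro p hp
    rw [List.mem_flatMap] at hp
    obtain ⟨k, hk, hp⟩ := hp
    obtain ⟨h1, h2⟩ := hmem k hk
    rw [hf] at hp
    simp only [trl, List.mem_map] at hp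
    obtain ⟨t, ht, rfl⟩ := hp
    exact hpass k.1 h1 k.2 h2 t ht
  obtain ⟨T', -, hT'⟩ := hR Q B T (idx.flatMap f) hsok' hpass'
  refine ⟨T', isUnit_of_red hm0 _ ?_⟩
  intro p hp
  set W := V.map (red (Nat.dvd_of_mem_primeFactors hp)) with hW
  have h1 : W.tvol T' = W.tvol T + W.dlt (idx.flatMap f) := hT' (ZMod p) W
  have h2 : W.dlt (idx.flatMap f) = ∑ q ∈ S, (j q : ZMod p) * W.dlt (w q) := by
    rw [dlt_flatMap]
    have e1 : idx.map (fun k => W.dlt (f k)) = idx.map (fun k => W.dlt (w k.1)) := by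
      apply List.map_congr_left
      intro k hk
      obtain ⟨h1, h2⟩ := hmem k hk
      rw [hf]
      show W.dlt (trl (x k.1 k.2) (w k.1)) = W.dlt (w k.1)
      have e0 : W.chi (x k.1 k.2) = 1 := by
        rw [hW]
        show red (Nat.dvd_of_mem_primeFactors hp) (V.chi (x k.1 k.2)) = 1
        rw [hchi k.1 h1 k.2 h2, map_one]
      rw [dlt_trl, e0, one_mul]
    rw [e1, hidx, Finset.sum_map_toList, Finset.sum_sigma]
    refine Finset.sum_congr rfl fun q _ => ?_
    show ∑ _s ∈ range (j q), W.dlt (w q) = (j q : ZMod p) * W.dlt (w q)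
    rw [Finset.sum_const, Finset.card_range, nsmul_eq_mul]
  have h3 := hj p hp
  rw [dif_pos hp] at h3
  have h4 : ∑ q ∈ S, (j q : ZMod p) * (if hp : p ∈ m.primeFactors then
      (V.map (red (Nat.dvd_of_mem_primeFactors hp))).dlt (w q) else 0) =
      ∑ q ∈ S, (j q : ZMod p) * W.dlt (w q) := by
    refine Finset.sum_congr rfl fun q _ => ?_
    rw [dif_pos hp]
  rw [h4, ← h2, ← hW, ← h1, hW, tvol_map] at h3
  exact h3

end Pool.Agent.Lib.MP_688fd0_co.OSF.H16
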